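import Mathlib
import Pool.Agent.U831.JE.Elim

/-!
# The hyperplane theorem: simultaneous measures and the discrepancy of linear forms
-/

set_option autoImplicit false

namespace Pool.Agent.U831.HY

open Finset Pool.Agent.U831.JE

/-- bad vectors which lie in no hyperplane contain a basis -/
lemma exists_basis {m : ℕ} (S : Set (Fin m → ℤ))
    (h : ∀ w : Fin m → ℚ, w ≠ 0 → ∃ l ∈ S, ∑ i, w i * l i ≠ 0) :
    ∃ L : Matrix (Fin m) (Fin m) ℤ, (∀ j, L j ∈ S) ∧ L.det ≠ 0 := by
  classical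
  set S' : Set (Fin m → ℚ) := (fun l : Fin m → ℤ => fun i => (l i : ℚ)) '' S with hS'
  have hspan : Submodule.span ℚ S' = ⊤ := by
    by_contra hne
    obtain ⟨f, hf0, hf⟩ := Submodule.exists_le_ker_of_lt_top _ (lt_top_iff_ne_top.2 hne)
    obtain ⟨l, hl, hl0⟩ := h (fun i => f (Pi.single i 1)) (by
      intro h0
      apply hf0
      apply LinearMap.pi_ext'
      intro i
      apply LinearMap.ext_ring
      have := congrFun h0 i
      simpa using this)
    apply hl0
    have h1 : f (fun i => (l i : ℚ)) = 0 := by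
      have h2 : (fun i => (l i : ℚ)) ∈ LinearMap.ker f := hf (Submodule.subset_span ⟨l, hl, rfl⟩)
      exact h2
    have h3 : (fun i => (l i : ℚ)) = ∑ i, (l i : ℚ) • (Pi.single i 1 : Fin m → ℚ) := by
      ext k
      simp [Finset.sum_apply, Pi.single_apply]
    rw [h3, map_sum] at h1
    rw [← h1]
    refine Finset.sum_congr rfl fun i _ => ?_
    rw [map_smul, smul_eq_mul, mul_comm]
  obtain ⟨b, hb, hbs, hli⟩ := exists_linearIndependent ℚ S'
  rw [hspan] at hbs
  have B : Module.Basis b ℚ (Fin m → ℚ) := Module.Basis.mk hli (by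
    rw [Subtype.range_coe]; exact hbs.ge)
  have e : b ≃ Fin m := by
    have := Module.Basis.indexEquiv (Module.Basis.mk hli (by
      rw [Subtype.range_coe]; exact hbs.ge)) (Pi.basisFun ℚ (Fin m))
    exact this
  have hx : ∀ j : Fin m, ∃ l ∈ S, (fun i => (l i : ℚ)) = ((e.symm j : b) : Fin m → ℚ) := by
    intro j
    exact hb (e.symm j).2
  choose L hLS hL using hx
  refine ⟨L, hLS, ?_⟩
  intro hdet
  have h4 : LinearIndependent ℚ (fun j : Fin m => (fun i => (L j i : ℚ))) := by
    have h5 : (fun j : Fin m => (fun i => (L j i : ℚ))) = (Subtype.val : b → (Fin m → ℚ)) ∘ e.symm := by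
      funext j
      exact hL j
    rw [h5]
    exact hli.comp _ e.symm.injective
  have h6 := (Matrix.linearIndependent_rows_iff_isUnit
    (A := (Matrix.of fun j i => (L j i : ℚ)))).1 h4
  rw [Matrix.isUnit_iff_isUnit_det, isUnit_iff_ne_zero] at h6
  apply h6
  have h7 : (Matrix.of fun j i => (L j i : ℚ)) = (Int.castRingHom ℚ).mapMatrix (Matrix.of L) := by
    ext j i
    simp
  rw [h7, ← RingHom.map_det]
  have h8 : (Matrix.of L).det = 0 := hdet
  rw [h8, map_zero]

lemma det_bound {m : ℕ} (A : Matrix (Fin m) (Fin m) ℤ) (b : ℝ) (h : ∀ i j, |(A i j : ℝ)| ≤ b) :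
    |(A.det : ℝ)| ≤ m.factorial * b ^ m := by
  have h1 : ((A.det : ℤ) : ℝ) = ((Int.castRingHom ℝ).mapMatrix A).det := by
    rw [← RingHom.map_det]; rfl
  rw [h1]
  have h2 := Matrix.det_le (A := (Int.castRingHom ℝ).mapMatrix A) (abv := AbsoluteValue.abs)
    (x := b) (fun i j => by simpa using h i j)
  simpa using h2

lemma adj_bound {m : ℕ} (A : Matrix (Fin m) (Fin m) ℤ) (b : ℝ) (hb : 1 ≤ b)
    (h : ∀ i j, |(A i j : ℝ)| ≤ b) (i j : Fin m) :
    |(A.adjugate i j : ℝ)| ≤ m.factorial * b ^ m := by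
  rw [Matrix.adjugate_apply]
  apply det_bound
  intro k l
  rw [Matrix.updateRow_apply]
  split_ifs
  · rcases eq_or_ne l i with rfl | hne
    · simp [hb]
    · rw [Pi.single_eq_of_ne hne]
      simp
      linarith
  · exact h k l

/-- linearly independent forms close to fractions give simultaneous approximations -/
lemma solve {m : ℕ} (x : Fin m → ℝ) (L : Matrix (Fin m) (Fin m) ℤ) (hdet : L.det ≠ 0)
    (b T ε : ℝ) (hb : 1 ≤ b) (hL : ∀ i j, |(L i j : ℝ)| ≤ b) (hT : 1 ≤ T)
    (q : Fin m → ℕ) (p : Fin m → ℤ) (hq1 : ∀ j, 1 ≤ q j) (hqT : ∀ j, (q j : ℝ) ≤ T)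
    (hε : ∀ j, |(q j : ℝ) * (∑ i, (L j i : ℝ) * x i) - p j| ≤ ε) :
    ∃ (Q : ℕ) (a : Fin m → ℤ), 1 ≤ Q ∧ (Q : ℝ) ≤ m.factorial * b ^ m * T ^ m ∧
      ∀ i, |(Q : ℝ) * x i - a i| ≤ m * (m.factorial * b ^ m) * T ^ (m - 1) * ε := by
  classical
  set P : ℕ := ∏ j, q j with hP
  have hP1 : 1 ≤ P := Finset.one_le_prod' fun j _ => hq1 j
  have hPT : (P : ℝ) ≤ T ^ m := by
    rw [hP]
    push_cast
    calc ∏ j, (q j : ℝ) ≤ ∏ _j : Fin m, T := by
          apply Finset.prod_le_prod
          · intro j _; positivity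
          · intro j _; exact hqT j
      _ = T ^ m := by simp
  -- the rescaled approximations
  have h1 : ∀ j, ∃ c : ℤ, |(P : ℝ) * (∑ i, (L j i : ℝ) * x i) - c| ≤ T ^ (m - 1) * ε := by
    intro j
    set r : ℕ := ∏ k ∈ univ.erase j, q k with hr
    have hPr : P = q j * r := (Finset.mul_prod_erase univ q (mem_univ j)).symm
    refine ⟨r * p j, ?_⟩
    have h2 : (P : ℝ) = q j * r := by rw [hPr]; push_cast; ring
    have h3 : (P : ℝ) * (∑ i, (L j i : ℝ) * x i) - ((r * p j : ℤ) : ℝ) =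
        r * ((q j : ℝ) * (∑ i, (L j i : ℝ) * x i) - p j) := by
      rw [h2]; push_cast; ring
    rw [h3, abs_mul, abs_of_nonneg (by positivity)]
    have h4 : (r : ℝ) ≤ T ^ (m - 1) := by
      rw [hr]
      push_cast
      calc ∏ k ∈ univ.erase j, (q k : ℝ) ≤ ∏ _k ∈ univ.erase j, T := by
            apply Finset.prod_le_prod
            · intro k _; positivity
            · intro k _; exact hqT k
        _ = T ^ (m - 1) := by
            rw [Finset.prod_const, Finset.card_erase_of_mem (mem_univ j)]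
            simp
    exact mul_le_mul h4 (hε j) (abs_nonneg _) (by positivity)
  choose c hc using h1
  set D : ℤ := L.det with hD
  -- Cramer
  have hcr : ∀ i, (D : ℝ) * x i = ∑ j, (L.adjugate i j : ℝ) * (∑ k, (L j k : ℝ) * x k) := by
    intro i
    have h5 : L.adjugate * L = L.det • (1 : Matrix (Fin m) (Fin m) ℤ) := Matrix.adjugate_mul L
    have h6 : ∀ k, ∑ j, L.adjugate i j * L j k = D * (1 : Matrix (Fin m) (Fin m) ℤ) i k := by
      intro k
      have := congrFun (congrFun h5 i) k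
      rw [Matrix.mul_apply, Matrix.smul_apply, smul_eq_mul] at this
      exact this
    calc (D : ℝ) * x i = ∑ k, ((D * (1 : Matrix (Fin m) (Fin m) ℤ) i k : ℤ) : ℝ) * x k := by
          rw [Finset.sum_eq_single i]
          · simp
          · intro k _ hk
            rw [Matrix.one_apply_ne hk.symm]
            simp
          · intro h; exact absurd (mem_univ i) h
      _ = ∑ k, (∑ j, (L.adjugate i j : ℝ) * (L j k : ℝ)) * x k := by
          refine Finset.sum_congr rfl fun k _ => ?_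
          rw [← h6 k]
          push_cast
          rfl
      _ = ∑ j, (L.adjugate i j : ℝ) * (∑ k, (L j k : ℝ) * x k) := by
          simp only [Finset.sum_mul, Finset.mul_sum]
          rw [Finset.sum_comm]
          refine Finset.sum_congr rfl fun j _ => Finset.sum_congr rfl fun k _ => ?_
          ring
  have hm : ∀ i, |(P : ℝ) * (D * x i) - ∑ j, (L.adjugate i j : ℝ) * c j| ≤
      m * (m.factorial * b ^ m) * T ^ (m - 1) * ε := by
    intro i
    rw [hcr i, Finset.mul_sum, ← Finset.sum_sub_distrib]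
    have h7 : ∀ j, |(P : ℝ) * ((L.adjugate i j : ℝ) * (∑ k, (L j k : ℝ) * x k)) -
        (L.adjugate i j : ℝ) * c j| ≤ (m.factorial * b ^ m) * (T ^ (m - 1) * ε) := by
      intro j
      have h8 : (P : ℝ) * ((L.adjugate i j : ℝ) * (∑ k, (L j k : ℝ) * x k)) -
        (L.adjugate i j : ℝ) * c j = (L.adjugate i j : ℝ) *
          ((P : ℝ) * (∑ k, (L j k : ℝ) * x k) - c j) := by ring
      rw [h8, abs_mul]
      exact mul_le_mul (adj_bound L b hb hL i j) (hc j) (abs_nonneg _) (by positivity)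
    calc |∑ j, ((P : ℝ) * ((L.adjugate i j : ℝ) * (∑ k, (L j k : ℝ) * x k)) -
        (L.adjugate i j : ℝ) * c j)| ≤ ∑ j, |(P : ℝ) * ((L.adjugate i j : ℝ) *
          (∑ k, (L j k : ℝ) * x k)) - (L.adjugate i j : ℝ) * c j| := Finset.abs_sum_le_sum_abs _ _
      _ ≤ ∑ _j : Fin m, (m.factorial * b ^ m) * (T ^ (m - 1) * ε) := Finset.sum_le_sum fun j _ => h7 j
      _ = m * (m.factorial * b ^ m) * T ^ (m - 1) * ε := by
          rw [Finset.sum_const, card_univ, Fintype.card_fin, nsmul_eq_mul]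
          ring
  refine ⟨P * D.natAbs, fun i => D.sign * ∑ j, L.adjugate i j * c j, ?_, ?_, ?_⟩
  · exact Nat.mul_pos hP1 (Int.natAbs_pos.2 hdet)
  · push_cast
    have h9 : ((D.natAbs : ℕ) : ℝ) = |(D : ℝ)| := by
      rw [← Int.cast_abs, Int.abs_eq_natAbs]
      simp
    rw [h9, mul_comm]
    exact mul_le_mul (det_bound L b hL) hPT (by positivity) (by positivity)
  · intro i
    have h9 : ((D.natAbs : ℕ) : ℝ) = D.sign * D := by
      have h10 : (D.natAbs : ℤ) = D.sign * D := by
        rw [Int.sign_mul_self_eq_natAbs]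
      have h13 : ((D.natAbs : ℕ) : ℝ) = (((D.natAbs : ℕ) : ℤ) : ℝ) := (Int.cast_natCast _).symm
      rw [h13, h10, Int.cast_mul]
    have h11 : (((P * D.natAbs : ℕ)) : ℝ) * x i - ((D.sign * ∑ j, L.adjugate i j * c j : ℤ) : ℝ) =
        (D.sign : ℝ) * ((P : ℝ) * (D * x i) - ∑ j, (L.adjugate i j : ℝ) * c j) := by
      push_cast
      rw [h9]
      ring
    rw [h11, abs_mul]
    have h12 : |(D.sign : ℝ)| = 1 := by
      rcases lt_or_gt_of_ne hdet with h | h
      · rw [Int.sign_eq_neg_one_of_neg h]; norm_num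
      · rw [Int.sign_eq_one_of_pos h]; norm_num
    rw [h12, one_mul]
    exact hm i

end Pool.Agent.U831.HY
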