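import Mathlib
import Pool.Agent.U831.HY.Core

/-!
# The hyperplane theorem
-/

set_option autoImplicit false

namespace Pool.Agent.U831.HY

open Finset Filter Pool.Agent.U831.JE

/-- a bad number is close to a fraction with a small denominator -/
lemma near (α : ℝ) (N : ℕ) (κ : ℝ) (hN : 1 ≤ N) (hN1 : 42 * Real.sqrt N ≤ (N : ℝ) ^ (1 - κ))
    (h : ¬ DiscLe α N ((N : ℝ) ^ (-κ))) :
    ∃ (q : ℕ) (p : ℤ), 1 ≤ q ∧ (q : ℝ) ≤ 20 * (N : ℝ) ^ κ ∧
      |(q : ℝ) * α - p| ≤ 20 * (N : ℝ) ^ κ / N := by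
  have hN0 : (0 : ℝ) < N := by exact_mod_cast hN
  unfold DiscLe at h
  push Not at h
  obtain ⟨γ, u, v, hu, huv, hv, hlt⟩ := h
  obtain ⟨q, p, A, hq1, -, hA, hp, hb⟩ := disc_le α N hN
  have h1 := hb γ u v hu huv hv
  have hq0 : (0 : ℝ) < q := by exact_mod_cast hq1
  have hA0 : 0 < A := by linarith
  have h2 : (N : ℝ) ^ (-κ) * N = (N : ℝ) ^ (1 - κ) := by
    rw [sub_eq_add_neg, add_comm, Real.rpow_add hN0, Real.rpow_one]
  rw [h2] at hlt
  have h3 : (N : ℝ) ^ (1 - κ) / 2 < 10 * (N / (q * A)) := by linarith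
  have h4 : (N : ℝ) ^ (1 - κ) = N / (N : ℝ) ^ κ := by
    rw [Real.rpow_sub hN0, Real.rpow_one]
  have hk0 : 0 < (N : ℝ) ^ κ := Real.rpow_pos_of_pos hN0 _
  have h5 : (q : ℝ) * A < 20 * (N : ℝ) ^ κ := by
    rw [h4] at h3
    have h6 : (N : ℝ) / (N : ℝ) ^ κ / 2 * ((N : ℝ) ^ κ * (q * A)) <
        10 * (N / (q * A)) * ((N : ℝ) ^ κ * (q * A)) :=
      mul_lt_mul_of_pos_right h3 (by positivity)
    have e1 : (N : ℝ) / (N : ℝ) ^ κ / 2 * ((N : ℝ) ^ κ * (q * A)) = N * (q * A / 2) := by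
      field_simp
    have e2 : 10 * ((N : ℝ) / (q * A)) * ((N : ℝ) ^ κ * (q * A)) = N * (10 * (N : ℝ) ^ κ) := by
      field_simp
    rw [e1, e2] at h6
    have h7 := lt_of_mul_lt_mul_left h6 hN0.le
    linarith
  have hq1' : (1 : ℝ) ≤ q := by exact_mod_cast hq1
  have h8 : (q : ℝ) ≤ q * A := by nlinarith
  have h9 : A ≤ q * A := by nlinarith
  refine ⟨q, p, hq1, by linarith, hp.trans ?_⟩
  exact div_le_div_of_nonneg_right (by linarith) hN0.le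

/-- **The hyperplane theorem.** Let `x_1, …, x_m` be real numbers with a simultaneous
irrationality measure of exponent `μ`, and `μ m M (κ + η) < 1`. For every large `X` there is one
hyperplane such that at all scales `N` between `X` and `X ^ M` all integer forms
`l_1 x_1 + … + l_m x_m` with `|l_i| ≤ N ^ η` outside the hyperplane have discrepancy at most
`N ^ (-κ)`. -/
theorem hyper {m : ℕ} (x : Fin m → ℝ) (μ : ℕ) (hμ : 1 ≤ μ) (c : ℝ) (hc : 0 < c)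
    (h : ∀ (a : Fin m → ℤ) (q : ℕ), 0 < q → ∃ i, c / (q : ℝ) ^ μ ≤ |x i - (a i : ℝ) / q|)
    (κ η M : ℝ) (hκ : 0 < κ) (hη : 0 ≤ η) (hκ2 : κ < 1 / 2) (hM : 1 ≤ M)
    (hm : (μ : ℝ) * m * M * (κ + η) < 1) :
    ∃ X₀ : ℝ, ∀ X : ℝ, X₀ ≤ X → ∃ w : Fin m → ℚ, w ≠ 0 ∧ ∀ N : ℕ, X ≤ N → (N : ℝ) ≤ X ^ M →
      ∀ l : Fin m → ℤ, (∀ i, |(l i : ℝ)| ≤ (N : ℝ) ^ η) → ∑ i, w i * l i ≠ 0 →
        DiscLe (∑ i, (l i : ℝ) * x i) N ((N : ℝ) ^ (-κ)) := by
  have hm1 : 1 ≤ m := by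
    obtain ⟨i, -⟩ := h 0 1 one_pos
    have := i.2
    omega
  set K : ℝ := m * m.factorial * 20 ^ m with hK
  have hK0 : 0 < K := by
    have : 0 < m := hm1
    positivity
  -- the two conditions on `X`
  have e1 : ∀ᶠ X : ℝ in atTop, 42 ≤ X ^ (1 / 2 - κ) :=
    (tendsto_rpow_atTop (by linarith)).eventually_ge_atTop 42
  have e2 : ∀ᶠ X : ℝ in atTop, K ^ μ * X ^ ((μ : ℝ) * m * M * (κ + η) - 1) < c := by
    have h1 : Tendsto (fun X : ℝ => X ^ (-(1 - (μ : ℝ) * m * M * (κ + η)))) atTop (nhds 0) :=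
      tendsto_rpow_neg_atTop (by linarith)
    have h2' := h1.const_mul (K ^ μ)
    rw [mul_zero] at h2'
    have h2 := (tendsto_order.1 h2').2 c hc
    filter_upwards [h2] with N h3
    have h4 : (μ : ℝ) * m * M * (κ + η) - 1 = -(1 - (μ : ℝ) * m * M * (κ + η)) := by ring
    rw [h4]
    exact h3
  obtain ⟨X₀, hX₀⟩ := ((e1.and e2).and (eventually_ge_atTop 1)).exists_forall_of_atTop
  refine ⟨X₀, fun X hX => ?_⟩
  obtain ⟨⟨h1, h2⟩, hX1⟩ := hX₀ X hX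
  by_contra hcon
  push Not at hcon
  have hX0 : (0 : ℝ) < X := by linarith
  have hXM : 1 ≤ X ^ M := Real.one_le_rpow hX1 (by linarith)
  obtain ⟨L, hL, hdet⟩ := exists_basis
    {l : Fin m → ℤ | ∃ N : ℕ, X ≤ N ∧ (N : ℝ) ≤ X ^ M ∧ (∀ i, |(l i : ℝ)| ≤ (N : ℝ) ^ η) ∧
      ¬ DiscLe (∑ i, (l i : ℝ) * x i) N ((N : ℝ) ^ (-κ))} (by
    intro w hw
    obtain ⟨N, hN1, hN2, l, hl1, hl2, hl3⟩ := hcon w hw
    exact ⟨l, ⟨N, hN1, hN2, hl1, hl3⟩, hl2⟩)
  set b : ℝ := (X ^ M) ^ η with hbdef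
  set T : ℝ := 20 * (X ^ M) ^ κ with hTdef
  have hnear : ∀ j, ∃ (q : ℕ) (p : ℤ), 1 ≤ q ∧ (q : ℝ) ≤ T ∧
      |(q : ℝ) * (∑ i, (L j i : ℝ) * x i) - p| ≤ T / X := by
    intro j
    obtain ⟨N, hN1, hN2, -, hbad⟩ := hL j
    have hN0 : (0 : ℝ) < N := by linarith
    have hN1' : (1 : ℝ) ≤ N := by linarith
    have h3 : 42 * Real.sqrt N ≤ (N : ℝ) ^ (1 - κ) := by
      have h4 : (N : ℝ) ^ (1 - κ) = (N : ℝ) ^ (1 / 2 - κ) * Real.sqrt N := by
        rw [Real.sqrt_eq_rpow, ← Real.rpow_add hN0]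
        congr 1
        ring
      rw [h4]
      refine mul_le_mul_of_nonneg_right (h1.trans ?_) (Real.sqrt_nonneg _)
      exact Real.rpow_le_rpow hX0.le hN1 (by linarith)
    obtain ⟨q, p, hq1, hq2, hqp⟩ := near _ N κ (by exact_mod_cast hN1') h3 hbad
    have h5 : 20 * (N : ℝ) ^ κ ≤ T :=
      mul_le_mul_of_nonneg_left (Real.rpow_le_rpow hN0.le hN2 hκ.le) (by norm_num)
    refine ⟨q, p, hq1, hq2.trans h5, hqp.trans ?_⟩
    exact div_le_div₀ (by positivity) h5 hX0 hN1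
  choose q p hq1 hqT hε using hnear
  have hb : 1 ≤ b := Real.one_le_rpow hXM hη
  have hT : 1 ≤ T := by
    have := Real.one_le_rpow hXM hκ.le
    rw [hTdef]
    linarith
  have hLb : ∀ j i, |(L j i : ℝ)| ≤ b := by
    intro j i
    obtain ⟨N, hN1, hN2, hl, -⟩ := hL j
    exact (hl i).trans (Real.rpow_le_rpow (by linarith) hN2 hη)
  obtain ⟨Q, a, hQ1, hQT, ha⟩ := solve x L hdet b T (T / X) hb hLb hT q p hq1 hqT hε
  obtain ⟨i, hi⟩ := h a Q hQ1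
  have hQ0 : (0 : ℝ) < Q := by exact_mod_cast hQ1
  set R : ℝ := m * (m.factorial * b ^ m) * T ^ m with hR
  have hR0 : 0 < R := by
    have : 0 < m := hm1
    positivity
  have hQR : (Q : ℝ) ≤ R := by
    refine hQT.trans ?_
    have : (1 : ℝ) ≤ m := by exact_mod_cast hm1
    rw [hR]
    have h5 : 0 ≤ (m.factorial * b ^ m) * T ^ m := by positivity
    nlinarith
  have haR : |(Q : ℝ) * x i - a i| ≤ R / X := by
    refine (ha i).trans (le_of_eq ?_)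
    have h5 : T ^ m = T ^ (m - 1) * T := by
      rw [← pow_succ]
      congr 1
      omega
    rw [hR, h5]
    ring
  have h6 : |x i - (a i : ℝ) / Q| = |(Q : ℝ) * x i - a i| / Q := by
    rw [show x i - (a i : ℝ) / Q = ((Q : ℝ) * x i - a i) / Q by field_simp, abs_div,
      abs_of_pos hQ0]
  rw [h6] at hi
  have h7 : c ≤ (Q : ℝ) ^ (μ - 1) * |(Q : ℝ) * x i - a i| := by
    have h8 : (Q : ℝ) ^ μ = (Q : ℝ) ^ (μ - 1) * Q := by
      rw [← pow_succ]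
      congr 1
      omega
    rw [div_le_iff₀ (by positivity), h8] at hi
    have h9 : |(Q : ℝ) * x i - a i| / Q * ((Q : ℝ) ^ (μ - 1) * Q) =
        (Q : ℝ) ^ (μ - 1) * |(Q : ℝ) * x i - a i| := by
      field_simp
    linarith
  have h8 : c ≤ R ^ μ / X := by
    calc c ≤ (Q : ℝ) ^ (μ - 1) * |(Q : ℝ) * x i - a i| := h7
      _ ≤ R ^ (μ - 1) * (R / X) := by
          apply mul_le_mul _ haR (abs_nonneg _) (by positivity)
          exact pow_le_pow_left₀ hQ0.le hQR _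
      _ = R ^ μ / X := by
          have : R ^ μ = R ^ (μ - 1) * R := by
            rw [← pow_succ]
            congr 1
            omega
          rw [this]
          ring
  have h9 : R = K * X ^ ((m : ℝ) * M * (κ + η)) := by
    have e3 : X ^ ((m : ℝ) * M * (κ + η)) = b ^ m * ((X ^ M) ^ κ) ^ m := by
      rw [hbdef, ← Real.rpow_natCast ((X ^ M) ^ η) m, ← Real.rpow_natCast ((X ^ M) ^ κ) m,
        ← Real.rpow_mul hX0.le, ← Real.rpow_mul hX0.le, ← Real.rpow_mul hX0.le,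
        ← Real.rpow_mul hX0.le, ← Real.rpow_add hX0]
      congr 1
      ring
    rw [e3, hR, hK, hTdef, mul_pow]
    ring
  have h10 : R ^ μ / X = K ^ μ * X ^ ((μ : ℝ) * m * M * (κ + η) - 1) := by
    rw [h9, mul_pow, Real.rpow_sub hX0, Real.rpow_one, ← Real.rpow_natCast (X ^ _) μ,
      ← Real.rpow_mul hX0.le]
    have : (m : ℝ) * M * (κ + η) * (μ : ℝ) = (μ : ℝ) * m * M * (κ + η) := by ring
    rw [this]
    ring
  linarith

end Pool.Agent.U831.HY
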